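import Mathlib
import Pool.Agent.H.MP_997199_an.C

set_option autoImplicit false

namespace Pool.Agent.Results.MP_997199_an.NotEquiv

open Pool.Agent.H.MP_997199_an

theorem result : ∃ (X : Type) (_ : NormedAddCommGroup X) (_ : NormedSpace ℝ X),
    CompleteSpace X ∧ RDPP X ∧ ∀ n : ℕ, ∃ A : Set (StrongDual ℝ X),
      A.Nonempty ∧ Bornology.IsBounded A ∧ n * chim A < omegam A :=
  ⟨XX, inferInstance, inferInstance, inferInstance, rdpp, main⟩

end Pool.Agent.Results.MP_997199_an.NotEquiv
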